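import Mathlib

/-!
# Relatively prime polynomials stay coprime on a generic line
-/

set_option autoImplicit false

namespace Pool.Agent.H964R4

open MvPolynomial

variable {F : Type} [Field F] {σ : Type}

/-- Restriction to the generic line `P + X Q`; the coordinates of `P` are `inr`, those of `Q` are
`inl`. -/
noncomputable def tau : MvPolynomial σ F →ₐ[F] Polynomial (MvPolynomial (σ ⊕ σ) F) :=
  aeval fun i => Polynomial.C (X (Sum.inr i)) + Polynomial.X * Polynomial.C (X (Sum.inl i))

/-- The translation `P ↦ P + c X Q`. -/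
noncomputable def thc (c : F) : Polynomial (MvPolynomial (σ ⊕ σ) F) →+*
    Polynomial (MvPolynomial (σ ⊕ σ) F) :=
  Polynomial.eval₂RingHom ((aeval (Sum.elim (fun i => Polynomial.C (X (Sum.inl i)))
    (fun i => Polynomial.C (X (Sum.inr i)) + Polynomial.C (C c) *
      (Polynomial.X * Polynomial.C (X (Sum.inl i))))) :
    MvPolynomial (σ ⊕ σ) F →ₐ[F] Polynomial (MvPolynomial (σ ⊕ σ) F)).toRingHom) Polynomial.X

theorem thc_X (c : F) : thc (σ := σ) c Polynomial.X = Polynomial.X := by
  simp [thc]

theorem thc_C (c r : F) : thc (σ := σ) c (Polynomial.C (C r)) = Polynomial.C (C r) := by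
  simp only [thc, Polynomial.coe_eval₂RingHom, Polynomial.eval₂_C, AlgHom.toRingHom_eq_coe,
    RingHom.coe_coe]
  rw [algHom_C]
  rfl

theorem thc_inl (c : F) (i : σ) : thc c (Polynomial.C (X (Sum.inl i))) =
    Polynomial.C (X (Sum.inl i)) := by
  simp [thc]

theorem thc_inr (c : F) (i : σ) : thc c (Polynomial.C (X (Sum.inr i))) =
    Polynomial.C (X (Sum.inr i)) + Polynomial.C (C c) *
      (Polynomial.X * Polynomial.C (X (Sum.inl i))) := by
  simp [thc]

theorem thc_inv (D : Polynomial (MvPolynomial (σ ⊕ σ) F)) : thc 1 (thc (-1) D) = D := by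
  have h : (thc (F := F) (σ := σ) 1).comp (thc (-1)) = RingHom.id _ := by
    apply Polynomial.ringHom_ext'
    · apply MvPolynomial.ringHom_ext
      · intro r
        simp only [RingHom.comp_apply, thc_C, RingHom.id_apply]
      · intro i
        rcases i with i | i
        · simp only [RingHom.comp_apply, thc_inl, RingHom.id_apply]
        · simp only [RingHom.comp_apply, thc_inr, RingHom.id_apply, map_add, map_mul, thc_C,
            thc_inl, thc_X]
          simp
          ring
    · simp only [RingHom.comp_apply, thc_X, RingHom.id_apply]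
  have := congrArg (fun φ => φ D) h
  simpa using this

theorem thc_tau (g : MvPolynomial σ F) : thc (-1) (tau g) = Polynomial.C (rename Sum.inr g) := by
  have h : (thc (F := F) (σ := σ) (-1)).comp (tau : MvPolynomial σ F →ₐ[F] _).toRingHom =
      Polynomial.C.comp (rename (R := F) (Sum.inr : σ → σ ⊕ σ)).toRingHom := by
    apply MvPolynomial.ringHom_ext
    · intro r
      simp only [RingHom.comp_apply, AlgHom.toRingHom_eq_coe, RingHom.coe_coe, rename_C]
      rw [algHom_C]
      exact thc_C (-1) r
    · intro i
      simp only [RingHom.comp_apply, AlgHom.toRingHom_eq_coe, RingHom.coe_coe, rename_X, tau,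
        aeval_X, map_add, map_mul, thc_inr, thc_inl, thc_X]
      simp
      ring
  have := congrArg (fun φ => φ g) h
  simpa using this

/-- A divisor of polynomials in disjoint variables. -/
theorem isUnit_of_dvd_rename {g h : MvPolynomial σ F} (hg : g ≠ 0)
    (hgh : IsRelPrime g h) {d : MvPolynomial (σ ⊕ σ) F} (h1 : d ∣ rename Sum.inr g)
    (h2 : d ∣ rename Sum.inr h) : IsUnit d := by
  let e := sumAlgEquiv F σ σ
  have he : ∀ f : MvPolynomial σ F, e (rename Sum.inr f) = C f := by
    intro f
    have h : (e.toAlgHom.comp (rename (R := F) (Sum.inr : σ → σ ⊕ σ))).toRingHom =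
        (C : MvPolynomial σ F →+* MvPolynomial σ (MvPolynomial σ F)) := by
      apply MvPolynomial.ringHom_ext
      · intro r
        simp only [RingHom.comp_apply, AlgHom.toRingHom_eq_coe, RingHom.coe_coe,
          AlgHom.comp_apply, rename_C]
        exact sumAlgEquiv_C_inl _ _ _ r
      · intro i
        simp only [RingHom.comp_apply, AlgHom.toRingHom_eq_coe, RingHom.coe_coe,
          AlgHom.comp_apply, rename_X]
        exact sumAlgEquiv_X_inr _ _ _ i
    have := congrArg (fun φ => φ f) h
    simpa using this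
  have h3 : e d ∣ C g := by rw [← he]; exact map_dvd e h1
  have h4 : e d ∣ C h := by rw [← he]; exact map_dvd e h2
  obtain ⟨d', hd'⟩ : ∃ d', e d = C d' := by
    obtain ⟨q, hq⟩ := h3
    have hgC : (C g : MvPolynomial σ (MvPolynomial σ F)) ≠ 0 := by
      rw [Ne, C_eq_zero]; exact hg
    have hne : e d ≠ 0 ∧ q ≠ 0 := by
      constructor
      · rintro h0; rw [h0, zero_mul] at hq; exact hgC hq
      · rintro h0; rw [h0, mul_zero] at hq; exact hgC hq
    have h5 := totalDegree_mul_of_isDomain hne.1 hne.2
    rw [← hq, totalDegree_C] at h5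
    refine ⟨_, (totalDegree_eq_zero_iff_eq_C).1 (by omega)⟩
  have h5 : d' ∣ g := by
    rw [hd'] at h3
    have := (C_dvd_iff_dvd_coeff d' (C g : MvPolynomial σ (MvPolynomial σ F))).1 h3 0
    rwa [coeff_zero_C] at this
  have h6 : d' ∣ h := by
    rw [hd'] at h4
    have := (C_dvd_iff_dvd_coeff d' (C h : MvPolynomial σ (MvPolynomial σ F))).1 h4 0
    rwa [coeff_zero_C] at this
  have h7 := hgh h5 h6
  have h8 : IsUnit (e d) := by rw [hd']; exact h7.map C
  exact (MulEquiv.isUnit_map e).1 h8

/-- Common divisors on the generic line are units. -/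
theorem isUnit_of_dvd_tau {g h : MvPolynomial σ F} (hg : g ≠ 0) (hgh : IsRelPrime g h)
    {D : Polynomial (MvPolynomial (σ ⊕ σ) F)} (h1 : D ∣ tau g) (h2 : D ∣ tau h) :
    IsUnit D := by
  have h3 := map_dvd (thc (-1)) h1
  have h4 := map_dvd (thc (-1)) h2
  rw [thc_tau] at h3 h4
  have hg' : rename (Sum.inr : σ → σ ⊕ σ) g ≠ 0 := by
    intro h0
    exact hg (rename_injective _ Sum.inr_injective (by rw [h0, map_zero]))
  have hdeg : (thc (-1) D).natDegree = 0 := by
    have h5 := Polynomial.natDegree_le_of_dvd h3 (Polynomial.C_ne_zero.2 hg')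
    rw [Polynomial.natDegree_C] at h5
    omega
  obtain ⟨d, hd⟩ : ∃ d, thc (-1) D = Polynomial.C d :=
    ⟨_, Polynomial.eq_C_of_natDegree_eq_zero hdeg⟩
  rw [hd] at h3 h4
  have h5 : d ∣ rename Sum.inr g := by
    have := (Polynomial.C_dvd_iff_dvd_coeff _ _).1 h3 0
    rwa [Polynomial.coeff_C_zero] at this
  have h6 : d ∣ rename Sum.inr h := by
    have := (Polynomial.C_dvd_iff_dvd_coeff _ _).1 h4 0
    rwa [Polynomial.coeff_C_zero] at this
  have h7 := isUnit_of_dvd_rename hg hgh h5 h6
  have h8 : IsUnit (thc (-1) D) := by rw [hd]; exact h7.map Polynomial.C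
  have h9 := h8.map (thc 1)
  rwa [thc_inv] at h9

theorem tau_inj : Function.Injective (tau : MvPolynomial σ F →ₐ[F] _) := by
  rw [injective_iff_map_eq_zero]
  intro g hg
  have h := thc_tau g
  rw [hg, map_zero] at h
  have h1 := Polynomial.C_eq_zero.1 h.symm
  exact rename_injective _ Sum.inr_injective (by rw [h1, map_zero])

/-- Relatively prime polynomials are coprime on the generic line. -/
theorem isCoprime_tau {g h : MvPolynomial σ F} (hg : g ≠ 0) (hgh : IsRelPrime g h) :
    IsCoprime ((tau g).map (algebraMap (MvPolynomial (σ ⊕ σ) F)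
      (FractionRing (MvPolynomial (σ ⊕ σ) F)))) ((tau h).map (algebraMap
      (MvPolynomial (σ ⊕ σ) F) (FractionRing (MvPolynomial (σ ⊕ σ) F)))) := by
  classical
  set R := MvPolynomial (σ ⊕ σ) F with hR
  set K := FractionRing R with hK
  have hinj : Function.Injective (algebraMap R K) := IsFractionRing.injective R K
  apply isCoprime_of_irreducible_dvd
  · rintro ⟨h0, -⟩
    rw [Polynomial.map_eq_zero_iff hinj] at h0
    exact hg (tau_inj (by rw [h0, map_zero]))
  · intro z hz h1 h2
    let _ : NormalizedGCDMonoid R := Classical.arbitrary _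
    set N := IsLocalization.integerNormalization (nonZeroDivisors R) z with hN
    obtain ⟨b, hb0, hb⟩ := IsLocalization.integerNormalization_spec (nonZeroDivisors R) z
    set D := N.primPart with hD
    have hDp : D.IsPrimitive := Polynomial.isPrimitive_primPart N
    have hDu : ¬ IsUnit D := fun h => hz.not_isUnit
      (Polynomial.isUnit_or_eq_zero_of_isUnit_integerNormalization_primPart hz.ne_zero h)
    have hDz : D.map (algebraMap R K) ∣ z := by
      have h3 : D.map (algebraMap R K) ∣ N.map (algebraMap R K) := by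
        rw [N.eq_C_content_mul_primPart, Polynomial.map_mul]
        exact Dvd.intro_left _ rfl
      rw [hb, Algebra.smul_def, Polynomial.algebraMap_apply] at h3
      have h4 : IsUnit (Polynomial.C (algebraMap R K b)) := by
        rw [Polynomial.isUnit_C]
        apply Ne.isUnit
        intro h0
        have : b = 0 := hinj (by rw [h0, map_zero])
        exact nonZeroDivisors.ne_zero hb0 this
      exact (h4.dvd_mul_left).1 h3
    have h3 : D ∣ tau g := hDp.dvd_of_fraction_map_dvd_fraction_map (hDz.trans h1)
    have h4 : D ∣ tau h := hDp.dvd_of_fraction_map_dvd_fraction_map (hDz.trans h2)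
    exact hDu (isUnit_of_dvd_tau hg hgh h3 h4)

end Pool.Agent.H964R4
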