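import Mathlib
import Pool.Agent.H531R2.D4.TI
import Pool.Agent.H530R2.Hit
import Pool.Agent.H964R4.Coef

/-!
# The Shpilka-Volkovich generator on generic lines is injective on algebras generated by few
polynomials of low degree
-/

set_option autoImplicit false
set_option linter.unusedSectionVars false

namespace Pool.Agent.H964R4

open MvPolynomial Pool.Agent.H530R2

section kill

variable {F : Type} [Field F] {τ : Type}

open Classical in
/-- Set the variables outside `S` to zero. -/
noncomputable def kill (S : Finset τ) : MvPolynomial τ F →ₐ[F] MvPolynomial τ F :=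
  aeval (fun i => if i ∈ S then X i else 0)

theorem coeff_kill (S : Finset τ) {e : τ →₀ ℕ} (he : e.support ⊆ S) (G : MvPolynomial τ F) :
    coeff e (kill S G) = coeff e G := by
  classical
  induction G using MvPolynomial.induction_on' with
  | monomial e' c =>
    by_cases hsub : e'.support ⊆ S
    · have h1 : kill S (monomial e' c) = monomial e' c := by
        unfold kill
        rw [aeval_monomial, monomial_eq]
        congr 1
        refine Finset.prod_congr rfl fun i hi => ?_
        simp only
        rw [if_pos (hsub hi)]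
      rw [h1]
    · have h1 : kill S (monomial e' c) = 0 := by
        unfold kill
        rw [aeval_monomial]
        obtain ⟨i, hi, hi'⟩ := Finset.not_subset.mp hsub
        have h2 : e'.prod (fun i k => (if i ∈ S then (X i : MvPolynomial τ F) else 0) ^ k) = 0 := by
          refine Finset.prod_eq_zero hi ?_
          simp only
          rw [if_neg hi', zero_pow (Finsupp.mem_support_iff.mp hi)]
        rw [h2, mul_zero]
      rw [h1, coeff_zero, coeff_monomial, if_neg]
      rintro rfl
      exact hsub he
  | add p q hp hq => rw [map_add, coeff_add, coeff_add, hp, hq]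

theorem pderiv_kill (S : Finset τ) {i : τ} (hi : i ∈ S) (G : MvPolynomial τ F) :
    pderiv i (kill S G) = kill S (pderiv i G) := by
  classical
  induction G using MvPolynomial.induction_on with
  | C a => rw [pderiv_C, map_zero, algHom_C, algebraMap_eq, pderiv_C]
  | add p q hp hq => rw [map_add, map_add, map_add, map_add, hp, hq]
  | mul_X p j hp =>
    have hX : pderiv i (kill S (X j : MvPolynomial τ F)) = kill S (pderiv i (X j)) := by
      rw [kill, aeval_X]
      by_cases hij : j = i
      · subst hij
        rw [if_pos hi, pderiv_X_self, map_one]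
      · rw [pderiv_X_of_ne hij, map_zero]
        split_ifs
        · rw [pderiv_X_of_ne hij]
        · rw [map_zero]
    rw [map_mul, pderiv_mul, pderiv_mul, hp, hX, map_add, map_mul, map_mul]

theorem kill_kill {S S' : Finset τ} (h : S ⊆ S') (G : MvPolynomial τ F) :
    kill S (kill S' G) = kill S G := by
  classical
  have h1 : (kill S).comp (kill S') = (kill S : MvPolynomial τ F →ₐ[F] _) := by
    apply algHom_ext
    intro i
    rw [AlgHom.comp_apply, kill, kill, aeval_X, aeval_X]
    by_cases hi : i ∈ S
    · rw [if_pos (h hi), aeval_X, if_pos hi]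
    · rw [if_neg hi]
      split_ifs
      · rw [aeval_X, if_neg hi]
      · rw [map_zero]
  rw [← AlgHom.comp_apply, h1]

theorem totalDegree_det_le {r : ℕ} (A : Matrix (Fin r) (Fin r) (MvPolynomial τ F)) (D : ℕ)
    (h : ∀ i j, (A i j).totalDegree ≤ D) : A.det.totalDegree ≤ r * D := by
  classical
  rw [Matrix.det_apply]
  refine (totalDegree_finsetSum _ _).trans (Finset.sup_le fun τ _ => ?_)
  have h2 : (Equiv.Perm.sign τ • ∏ i, A (τ i) i).totalDegree ≤ (∏ i, A (τ i) i).totalDegree := by
    rcases Int.units_eq_one_or (Equiv.Perm.sign τ) with h | h <;> rw [h]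
    · simp
    · simp
  refine h2.trans ((totalDegree_finsetProd _ _).trans ?_)
  refine (Finset.sum_le_card_nsmul _ _ D fun i _ => h _ _).trans ?_
  simp

theorem totalDegree_pderiv_le (i : τ) (Q : MvPolynomial τ F) :
    (pderiv i Q).totalDegree ≤ Q.totalDegree := by
  classical
  apply Finset.sup_le
  intro m hm
  rw [mem_support_iff, MvPolynomial.coeff_pderiv] at hm
  have h1 : coeff (m + Finsupp.single i 1) Q ≠ 0 := left_ne_zero_of_mul hm
  have h2 := le_totalDegree (mem_support_iff.2 h1)
  rw [Finsupp.sum_add_index' (by simp) (by simp), Finsupp.sum_single_index rfl] at h2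
  omega

theorem card_support_le_degree (m : τ →₀ ℕ) : m.support.card ≤ m.sum fun _ e => e := by
  rw [Finsupp.sum, Finset.card_eq_sum_ones]
  exact Finset.sum_le_sum fun i hi => Nat.one_le_iff_ne_zero.2 (Finsupp.mem_support_iff.1 hi)

/-- Algebraically independent polynomials of low degree remain independent when all but few
variables are set to zero. -/
theorem kill_algInd [CharZero F] [Fintype τ] {r δ : ℕ} (T : Fin r → MvPolynomial τ F)
    (hT : ∀ a, (T a).totalDegree ≤ δ) (h : AlgebraicIndependent F T) :
    ∃ S : Finset τ, S.card ≤ r * δ + r ∧ AlgebraicIndependent F (fun a => kill S (T a)) := by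
  classical
  obtain ⟨s, hs⟩ := Pool.Agent.H531R2.D4.det_of_algIndK T h
  obtain ⟨m, hm⟩ := support_nonempty.2 hs
  have hJd := totalDegree_det_le (Matrix.of fun a b => pderiv (s b) (T a)) δ (by
    intro i j
    rw [Matrix.of_apply]
    exact (totalDegree_pderiv_le _ _).trans (hT _))
  refine ⟨m.support ∪ Finset.univ.image s, ?_, ?_⟩
  · refine (Finset.card_union_le _ _).trans (Nat.add_le_add ?_ ?_)
    · exact (card_support_le_degree m).trans ((le_totalDegree hm).trans hJd)
    · exact Finset.card_image_le.trans (by simp)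
  · set S := m.support ∪ Finset.univ.image s with hS
    apply Pool.Agent.H531R2.D4.algInd_of_detK (fun b => pderiv (s b))
    intro h0
    have h1 : (Matrix.of fun a b => pderiv (s b) (kill S (T a))) =
        (kill S).toRingHom.mapMatrix (Matrix.of fun a b => pderiv (s b) (T a)) := by
      ext1 a b
      rw [Matrix.of_apply, RingHom.mapMatrix_apply, Matrix.map_apply, Matrix.of_apply]
      exact pderiv_kill S (Finset.mem_union_right _ (Finset.mem_image_of_mem _
        (Finset.mem_univ _))) _
    rw [h1, ← RingHom.map_det] at h0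
    have h2 := congrArg (coeff m) h0
    rw [coeff_zero] at h2
    change coeff m (kill S _) = 0 at h2
    rw [coeff_kill S Finset.subset_union_left] at h2
    exact (mem_support_iff.1 hm) h2

end kill

section gen

variable {F : Type} [Field F] {n v : ℕ} (a : Fin n → F)

/-- Two families of coefficients for the seeds. -/
abbrev B3 (F : Type) [Field F] (v : ℕ) : Type := MvPolynomial ((Fin v ⊕ Fin v) ⊕ Fin v) F

/-- The fraction field. -/
abbrev K3 (F : Type) [Field F] (v : ℕ) : Type := FractionRing (B3 F v)

instance [CharZero F] (v : ℕ) : CharZero (K3 F v) := by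
  have : CharZero (B3 F v) := inferInstance
  exact charZero_of_injective_algebraMap (R := B3 F v) (IsFractionRing.injective (B3 F v) (K3 F v))

/-- The pair of generators. -/
noncomputable def Phi2 (v : ℕ) : MvPolynomial (Fin n ⊕ Fin n) F →ₐ[F] B3 F v :=
  aeval (Sum.elim
    (fun i => ∑ t : Fin v, X (Sum.inr t) *
      ∏ i' ∈ Finset.univ.erase i, (X (Sum.inl (Sum.inr t)) - C (a i')))
    (fun i => ∑ t : Fin v, X (Sum.inl (Sum.inl t)) *
      ∏ i' ∈ Finset.univ.erase i, (X (Sum.inl (Sum.inr t)) - C (a i'))))

/-- Translation of the generator. -/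
noncomputable def Psi (F : Type) [Field F] (v : ℕ) :
    MvPolynomial (Fin v ⊕ Fin v) F →ₐ[F] Polynomial (B3 F v) :=
  aeval (Sum.elim
    (fun t => Polynomial.C (X (Sum.inl (Sum.inl t))) + Polynomial.X * Polynomial.C (X (Sum.inr t)))
    (fun t => Polynomial.C (X (Sum.inl (Sum.inr t)))))

theorem Psi_y (t : Fin v) : Psi F v (X (Sum.inl t)) =
    Polynomial.C (X (Sum.inl (Sum.inl t))) + Polynomial.X * Polynomial.C (X (Sum.inr t)) := by
  rw [Psi, aeval_X, Sum.elim_inl]

theorem Psi_z (t : Fin v) : Psi F v (X (Sum.inr t)) =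
    Polynomial.C (X (Sum.inl (Sum.inr t))) := by
  rw [Psi, aeval_X, Sum.elim_inr]

theorem Psi_C (r : F) : Psi F v (C r) = Polynomial.C (C r) := by
  rw [algHom_C]
  rfl

theorem Psi_eval (f : MvPolynomial (Fin v ⊕ Fin v) F) :
    (Psi F v f).eval 0 = rename Sum.inl f := by
  have h : ((Polynomial.evalRingHom (0 : B3 F v)).comp (Psi F v).toRingHom) =
      (rename (R := F) (Sum.inl : Fin v ⊕ Fin v → (Fin v ⊕ Fin v) ⊕ Fin v)).toRingHom := by
    apply MvPolynomial.ringHom_ext
    · intro z
      simp only [RingHom.comp_apply, AlgHom.toRingHom_eq_coe, RingHom.coe_coe, rename_C, Psi_C]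
      simp
    · rintro (t | t)
      · simp only [RingHom.comp_apply, AlgHom.toRingHom_eq_coe, RingHom.coe_coe, rename_X, Psi_y]
        simp
      · simp only [RingHom.comp_apply, AlgHom.toRingHom_eq_coe, RingHom.coe_coe, rename_X, Psi_z]
        simp
  have := congrArg (fun φ => φ f) h
  simpa using this

theorem Psi_inj : Function.Injective (Psi F v) := by
  rw [injective_iff_map_eq_zero]
  intro f hf
  have h1 := Psi_eval f
  rw [hf, Polynomial.eval_zero] at h1
  exact rename_injective _ Sum.inl_injective (by rw [← h1, map_zero])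

theorem Psi_gen (g : MvPolynomial (Fin n) F) :
    Psi F v (gen a v g) = (tau g).map (Phi2 a v).toRingHom := by
  have h : ((Psi F v).comp (gen a v)).toRingHom =
      (Polynomial.mapRingHom (Phi2 a v).toRingHom).comp (tau (σ := Fin n)).toRingHom := by
    apply MvPolynomial.ringHom_ext
    · intro r
      simp only [RingHom.comp_apply, AlgHom.toRingHom_eq_coe, RingHom.coe_coe, AlgHom.comp_apply]
      rw [algHom_C, algHom_C, AlgHom.commutes, Polynomial.coe_mapRingHom,
        Polynomial.algebraMap_apply, Polynomial.algebraMap_apply, Polynomial.map_C]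
      congr 1
      exact ((Phi2 a v).commutes r).symm
    · intro i
      simp only [RingHom.comp_apply, AlgHom.toRingHom_eq_coe, RingHom.coe_coe, AlgHom.comp_apply]
      rw [gen, aeval_X, map_sum, tau, aeval_X, Polynomial.coe_mapRingHom, Polynomial.map_add,
        Polynomial.map_mul, Polynomial.map_C, Polynomial.map_C, Polynomial.map_X]
      have h1 : (↑(Phi2 a v) : MvPolynomial (Fin n ⊕ Fin n) F →+* B3 F v) (X (Sum.inr i)) =
          ∑ t : Fin v, X (Sum.inl (Sum.inl t)) *
            ∏ i' ∈ Finset.univ.erase i, (X (Sum.inl (Sum.inr t)) - C (a i')) := by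
        simp [Phi2]
      have h2 : (↑(Phi2 a v) : MvPolynomial (Fin n ⊕ Fin n) F →+* B3 F v) (X (Sum.inl i)) =
          ∑ t : Fin v, X (Sum.inr t) *
            ∏ i' ∈ Finset.univ.erase i, (X (Sum.inl (Sum.inr t)) - C (a i')) := by
        simp [Phi2]
      rw [h1, h2, map_sum, map_sum, Finset.mul_sum, ← Finset.sum_add_distrib]
      refine Finset.sum_congr rfl fun t _ => ?_
      have h3 : Psi F v (∏ i' ∈ Finset.univ.erase i, (X (Sum.inr t) - C (a i'))) =
          Polynomial.C (∏ i' ∈ Finset.univ.erase i, (X (Sum.inl (Sum.inr t)) - C (a i'))) := by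
        rw [map_prod, map_prod]
        refine Finset.prod_congr rfl fun i' _ => ?_
        rw [map_sub, Psi_z, Psi_C, Polynomial.C_sub]
      rw [map_mul, h3, Psi_y, Polynomial.C_mul, Polynomial.C_mul]
      ring
  have := congrArg (fun φ => φ g) h
  simpa using this

open Classical in
/-- A specialisation of the seeds. -/
noncomputable def Spec (S : Finset (Fin n)) (e : S ↪ Fin v) :
    B3 F v →ₐ[F] MvPolynomial (Fin n ⊕ Fin n) F :=
  aeval (Sum.elim (Sum.elim
    (Function.extend e (fun i : S => C (∏ i' ∈ Finset.univ.erase (i : Fin n), (a i - a i'))⁻¹ *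
      X (Sum.inr (i : Fin n))) 0)
    (Function.extend e (fun i : S => C (a i)) 0))
    (Function.extend e (fun i : S => C (∏ i' ∈ Finset.univ.erase (i : Fin n), (a i - a i'))⁻¹ *
      X (Sum.inl (i : Fin n))) 0))

theorem sum_extend {A : Type} [CommRing A] (ha : Function.Injective a) [Algebra F A]
    (S : Finset (Fin n)) (e : S ↪ Fin v) (x : Fin n → A) (i : Fin n) :
    ∑ t : Fin v, (Function.extend e (fun i : S =>
        algebraMap F A (∏ i' ∈ Finset.univ.erase (i : Fin n), (a i - a i'))⁻¹ * x (i : Fin n)) 0) t *
      ∏ i' ∈ Finset.univ.erase i, ((Function.extend e (fun i : S => algebraMap F A (a i)) 0) t -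
        algebraMap F A (a i')) = if i ∈ S then x i else 0 := by
  classical
  have h1 : ∑ t : Fin v, (Function.extend e (fun i : S =>
        algebraMap F A (∏ i' ∈ Finset.univ.erase (i : Fin n), (a i - a i'))⁻¹ * x (i : Fin n)) 0) t *
      ∏ i' ∈ Finset.univ.erase i, ((Function.extend e (fun i : S => algebraMap F A (a i)) 0) t -
        algebraMap F A (a i')) = ∑ t ∈ Finset.univ.map e, (Function.extend e (fun i : S =>
        algebraMap F A (∏ i' ∈ Finset.univ.erase (i : Fin n), (a i - a i'))⁻¹ * x (i : Fin n)) 0) t *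
      ∏ i' ∈ Finset.univ.erase i, ((Function.extend e (fun i : S => algebraMap F A (a i)) 0) t -
        algebraMap F A (a i')) := by
    symm
    apply Finset.sum_subset (Finset.subset_univ _)
    intro t _ ht
    rw [Function.extend_apply', Pi.zero_apply, zero_mul]
    rintro ⟨s, hs⟩
    exact ht (Finset.mem_map.2 ⟨s, Finset.mem_univ _, hs⟩)
  rw [h1, Finset.sum_map]
  have h2 : ∀ s : S, (Function.extend e (fun i : S =>
        algebraMap F A (∏ i' ∈ Finset.univ.erase (i : Fin n), (a i - a i'))⁻¹ * x (i : Fin n)) 0)
          (e s) *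
      ∏ i' ∈ Finset.univ.erase i, ((Function.extend e (fun i : S => algebraMap F A (a i)) 0) (e s) -
        algebraMap F A (a i')) = if (s : Fin n) = i then x i else 0 := by
    intro s
    rw [e.injective.extend_apply, e.injective.extend_apply]
    simp only [← map_sub, ← map_prod]
    split_ifs with hsi
    · rw [hsi, mul_right_comm, ← map_mul, inv_mul_cancel₀, map_one, one_mul]
      rw [Finset.prod_ne_zero_iff]
      intro i' hi' h0
      exact (Finset.ne_of_mem_erase hi') (ha (sub_eq_zero.1 h0)).symm
    · have h3 : ∏ i' ∈ Finset.univ.erase i, (a s - a i') = 0 :=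
        Finset.prod_eq_zero (i := (s : Fin n)) (Finset.mem_erase.2 ⟨hsi, Finset.mem_univ _⟩)
          (sub_self _)
      rw [h3, map_zero, mul_zero]
  rw [Finset.sum_congr rfl fun s _ => h2 s]
  by_cases hi : i ∈ S
  · rw [if_pos hi, Finset.sum_eq_single ⟨i, hi⟩]
    · rw [if_pos rfl]
    · intro s _ hs
      rw [if_neg]
      intro h
      exact hs (Subtype.ext h)
    · intro h
      exact absurd (Finset.mem_univ _) h
  · rw [if_neg hi]
    apply Finset.sum_eq_zero
    intro s _
    rw [if_neg]
    rintro rfl
    exact hi s.2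

theorem Spec_Phi2 (ha : Function.Injective a) (S : Finset (Fin n)) (e : S ↪ Fin v)
    (H : MvPolynomial (Fin n ⊕ Fin n) F) :
    Spec a S e (Phi2 a v H) = kill (S.disjSum S) H := by
  classical
  have h : (Spec a S e).comp (Phi2 a v) = kill (S.disjSum S) := by
    apply algHom_ext
    intro i
    rw [AlgHom.comp_apply, kill, aeval_X, Phi2, aeval_X]
    rcases i with i | i
    · rw [Sum.elim_inl, map_sum]
      have h1 := sum_extend a ha S e (fun i => (X (Sum.inl i) : MvPolynomial (Fin n ⊕ Fin n) F)) i
      simp only [Finset.inl_mem_disjSum]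
      refine Eq.trans ?_ (h1.trans (by split_ifs <;> rfl))
      refine Finset.sum_congr rfl fun t _ => ?_
      rw [map_mul, map_prod, Spec, aeval_X, Sum.elim_inr]
      congr 1
      refine Finset.prod_congr rfl fun i' _ => ?_
      rw [map_sub, aeval_X, Sum.elim_inl, Sum.elim_inr, aeval_C]
      rfl
    · rw [Sum.elim_inr, map_sum]
      have h1 := sum_extend a ha S e (fun i => (X (Sum.inr i) : MvPolynomial (Fin n ⊕ Fin n) F)) i
      simp only [Finset.inr_mem_disjSum]
      refine Eq.trans ?_ (h1.trans (by split_ifs <;> rfl))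
      refine Finset.sum_congr rfl fun t _ => ?_
      rw [map_mul, map_prod, Spec, aeval_X, Sum.elim_inl, Sum.elim_inl]
      congr 1
      refine Finset.prod_congr rfl fun i' _ => ?_
      rw [map_sub, aeval_X, Sum.elim_inl, Sum.elim_inr, aeval_C]
      rfl
  rw [← h, AlgHom.comp_apply]

/-- The pair of generators is injective on algebras generated by few polynomials of low degree. -/
theorem Phi2_faithful [CharZero F] (ha : Function.Injective a) {M δ : ℕ}
    (q : Fin M → MvPolynomial (Fin n ⊕ Fin n) F) (hq : ∀ b, (q b).totalDegree ≤ δ)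
    (hv : M * δ + M ≤ v) {H : MvPolynomial (Fin n ⊕ Fin n) F}
    (hH : H ∈ Algebra.adjoin F (Set.range q)) (h0 : Phi2 a v H = 0) : H = 0 := by
  classical
  apply Pool.Agent.H531R2.D4.faithfulK q (Phi2 a v) (k := M) ?_ ?_ hH h0
  · intro u hu
    have hinj : Function.Injective u := by
      intro x y hxy
      apply hu.injective
      simp only [hxy]
    have := Fintype.card_le_of_injective u hinj
    simp at this
  · intro r hr u hu
    obtain ⟨S2, hS2, hind⟩ := kill_algInd (fun a => q (u a)) (fun a => hq _) hu
    set S : Finset (Fin n) := S2.image (Sum.elim id id) with hS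
    have hcard : S.card ≤ v := by
      refine Finset.card_image_le.trans (hS2.trans (le_trans ?_ hv))
      exact Nat.add_le_add (Nat.mul_le_mul_right _ hr) hr
    obtain ⟨e⟩ : Nonempty (S ↪ Fin v) := by
      rw [Function.Embedding.nonempty_iff_card_le, Fintype.card_fin, Fintype.card_coe]
      exact hcard
    have hsub : S2 ⊆ S.disjSum S := by
      rintro (i | i) hi
      · exact Finset.inl_mem_disjSum.2 (Finset.mem_image.2 ⟨_, hi, rfl⟩)
      · exact Finset.inr_mem_disjSum.2 (Finset.mem_image.2 ⟨_, hi, rfl⟩)
    refine AlgebraicIndependent.of_comp ((kill S2).comp (Spec a S e)) ?_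
    have h1 : (⇑((kill S2).comp (Spec a S e)) ∘ fun b => (Phi2 a v) (q (u b))) =
        fun b => kill S2 (q (u b)) := by
      funext b
      rw [Function.comp_apply, AlgHom.comp_apply, Spec_Phi2 a ha, kill_kill hsub]
    rw [h1]
    exact hind

theorem Phi2_faithful' [CharZero F] (ha : Function.Injective a) {ι : Type} [Fintype ι] {δ : ℕ}
    (q : ι → MvPolynomial (Fin n ⊕ Fin n) F) (hq : ∀ b, (q b).totalDegree ≤ δ)
    (hv : Fintype.card ι * δ + Fintype.card ι ≤ v) {H : MvPolynomial (Fin n ⊕ Fin n) F}
    (hH : H ∈ Algebra.adjoin F (Set.range q)) (h0 : Phi2 a v H = 0) : H = 0 := by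
  have h1 : Set.range q = Set.range (q ∘ (Fintype.equivFin ι).symm) := by
    rw [(Fintype.equivFin ι).symm.surjective.range_comp]
  rw [h1] at hH
  exact Phi2_faithful a ha (q ∘ (Fintype.equivFin ι).symm) (fun b => hq _) hv hH h0

end gen

end Pool.Agent.H964R4
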