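import Mathlib
import Pool.Agent.H530R2.Hit

/-!
# The kernel of the Shpilka-Volkovich generator is a homogeneous ideal
-/

set_option autoImplicit false

namespace Pool.Agent.H964R4

open MvPolynomial Pool.Agent.H530R2

variable {F : Type} [Field F] {n v : ℕ} (a : Fin n → F)

/-- Scaling of the first seeds. -/
noncomputable def scl (F : Type) [Field F] (v : ℕ) :
    MvPolynomial (Fin v ⊕ Fin v) F →ₐ[F] Polynomial (MvPolynomial (Fin v ⊕ Fin v) F) :=
  aeval (Sum.elim (fun l => Polynomial.C (X (Sum.inl l)) * Polynomial.X)
    (fun l => Polynomial.C (X (Sum.inr l))))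

theorem scl_C (r : F) : scl F v (C r) = Polynomial.C (C r) := by
  rw [algHom_C]
  rfl

theorem scl_gen_X (i : Fin n) : scl F v (gen a v (X i)) =
    Polynomial.C (gen a v (X i)) * Polynomial.X := by
  rw [gen, aeval_X, map_sum, map_sum, Finset.sum_mul]
  refine Finset.sum_congr rfl fun l _ => ?_
  have h : scl F v (∏ i' ∈ Finset.univ.erase i, (X (Sum.inr l) - C (a i'))) =
      Polynomial.C (∏ i' ∈ Finset.univ.erase i, (X (Sum.inr l) - C (a i'))) := by
    rw [map_prod, map_prod]
    refine Finset.prod_congr rfl fun i' _ => ?_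
    rw [map_sub, scl_C, Polynomial.C_sub, scl, aeval_X, Sum.elim_inr]
  rw [map_mul, h, Polynomial.C_mul, scl, aeval_X, Sum.elim_inl]
  ring

theorem scl_gen_monomial (m : Fin n →₀ ℕ) (c : F) : scl F v (gen a v (monomial m c)) =
    Polynomial.C (gen a v (monomial m c)) * Polynomial.X ^ m.degree := by
  rw [monomial_eq, map_mul, map_mul, Finsupp.prod, map_prod, map_prod]
  have h1 : gen a v (C c) = C c := by
    rw [algHom_C]
    rfl
  rw [h1, scl_C]
  have h2 : ∀ i ∈ m.support, scl F v (gen a v (X i ^ m i)) =
      Polynomial.C (gen a v (X i ^ m i)) * Polynomial.X ^ m i := by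
    intro i _
    rw [map_pow, map_pow, scl_gen_X, mul_pow, Polynomial.C_pow]
  rw [Finset.prod_congr rfl h2, Finset.prod_mul_distrib, Finset.prod_pow_eq_pow_sum,
    Polynomial.C_mul, ← map_prod Polynomial.C]
  rw [mul_assoc]
  rfl

theorem scl_gen (f : MvPolynomial (Fin n) F) (d : ℕ) :
    (scl F v (gen a v f)).coeff d = gen a v (homogeneousComponent d f) := by
  induction f using MvPolynomial.induction_on' with
  | monomial m c =>
    rw [scl_gen_monomial, Polynomial.coeff_C_mul, Polynomial.coeff_X_pow]
    split_ifs with h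
    · rw [mul_one, h, homogeneousComponent_of_mem (isHomogeneous_monomial c rfl), if_pos rfl]
    · rw [mul_zero, homogeneousComponent_of_mem (isHomogeneous_monomial c rfl), if_neg h,
        map_zero]
  | add p q hp hq => rw [map_add, map_add, Polynomial.coeff_add, hp, hq, map_add, map_add]

/-- The homogeneous components of a polynomial vanishing on the generator vanish on it. -/
theorem gen_component {f : MvPolynomial (Fin n) F} (hf : gen a v f = 0) (d : ℕ) :
    gen a v (homogeneousComponent d f) = 0 := by
  rw [← scl_gen, hf, map_zero, Polynomial.coeff_zero]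

end Pool.Agent.H964R4
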