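import Mathlib
import Pool.Agent.H964R3.Sep

/-!
# Linear relations among power products with polynomial coefficients split along far classes
-/

set_option autoImplicit false

namespace Pool.Agent.H964R4

open Polynomial Pool.Agent.H964R3

set_option linter.unusedSectionVars false

variable {K : Type*} [Field K] [CharZero K] {n : ℕ} {ι : Type*} [DecidableEq ι]

/-- In a minimal relation all exponent vectors are close to each other. -/
theorem far_auxR (R : ι → K[X]) (g : Fin n → K[X]) (hg0 : ∀ j, g j ≠ 0)
    (hco : ∀ j j', j ≠ j' → IsCoprime (g j) (g j')) (e : ι → Fin n → ℕ) (t : Finset ι)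
    (d : ι → K) (hd : ∀ i ∈ t, d i ≠ 0) (hrel : ∑ i ∈ t, C (d i) * (R i * ∏ j, g j ^ e i j) = 0)
    (hmin : ∀ s, s ⊂ t → ∀ c : ι → K, ∑ i ∈ s, C (c i) * (R i * ∏ j, g j ^ e i j) = 0 →
      ∀ i ∈ s, c i = 0) (a b : ι) (ha : a ∈ t) (hb : b ∈ t) :
    ∑ j, (g j).natDegree * (e a j - e b j) ≤
      (t.card - 2) * (∑ i ∈ t, ∑ j, if e i j = 0 then 0 else (g j).natDegree) +
        ∑ i ∈ t, (R i).natDegree := by
  classical
  set u : ι → K[X] := fun i => R i * ∏ j, g j ^ e i j with hu
  have hudeg : ∀ i, (u i).natDegree ≤ (R i).natDegree + ∑ j, e i j * (g j).natDegree := by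
    intro i
    rw [hu]
    refine natDegree_mul_le.trans (Nat.add_le_add_left (le_of_eq ?_) _)
    rw [natDegree_prod _ _ fun j _ => pow_ne_zero _ (hg0 j)]
    exact Finset.sum_congr rfl fun j _ => by rw [natDegree_pow]
  set s := t.erase a with hs
  set m := s.card with hm
  let σ : Fin m ≃ s := s.equivFin.symm
  set f : Fin m → K[X] := fun x => u (σ x) with hf
  -- the Wronskian is nonzero
  have hW : (Wm f).det ≠ 0 := by
    intro h0
    obtain ⟨c, hc, hs0⟩ := wronskian_depK m f h0
    apply hc
    have h1 := hmin s (Finset.erase_ssubset ha)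
      (fun i => if h : i ∈ s then c (σ.symm ⟨i, h⟩) else 0) (by
        rw [← Finset.sum_coe_sort s, ← Equiv.sum_comp σ]
        rw [← hs0]
        refine Finset.sum_congr rfl fun x _ => ?_
        have h2 : ((σ x : s) : ι) ∈ s := (σ x).2
        simp only [dif_pos h2, Subtype.coe_eta, Equiv.symm_apply_apply]
        rfl)
    funext x
    have h2 := h1 (σ x) (σ x).2
    simp only [dif_pos (σ x).2, Subtype.coe_eta, Equiv.symm_apply_apply] at h2
    exact h2
  have hsumf : ∀ φ : ι → ℕ, ∑ x : Fin m, φ (σ x) = ∑ i ∈ s, φ i := by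
    intro φ
    rw [← Finset.sum_coe_sort s, ← Equiv.sum_comp σ]
  -- divisibility
  have hbmin : ∀ j, ∃ b ∈ t, ∀ i ∈ t, e b j ≤ e i j := fun j =>
    Finset.exists_min_image t (fun i => e i j) ⟨a, ha⟩
  choose β hβt hβ using hbmin
  set ν : Fin n → ℕ := fun j => ∑ i ∈ t, if e i j = 0 then 0 else 1 with hν
  have hsub : ∀ j, (∑ i ∈ t, e i j) - e (β j) j - (m - 1) * ν j + (e (β j) j - (m - 1)) ≤
      ∑ i ∈ t, (e i j - (m - 1)) := by
    intro j
    have h1 : ∑ i ∈ t, e i j ≤ ∑ i ∈ t, (e i j - (m - 1)) + (m - 1) * ν j := by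
      simp only [hν]
      rw [Finset.mul_sum, ← Finset.sum_add_distrib]
      refine Finset.sum_le_sum fun i _ => ?_
      split_ifs with h0
      · omega
      · omega
    have h2 : e (β j) j - (m - 1) ≤ ∑ i ∈ t, (e i j - (m - 1)) :=
      Finset.single_le_sum (f := fun i => e i j - (m - 1)) (fun _ _ => Nat.zero_le _) (hβt j)
    omega
  have hdiv : ∀ j, g j ^ ((∑ i ∈ t, e i j) - e (β j) j - (m - 1) * ν j) ∣ (Wm f).det := by
    intro j
    have hu_dvd : ∀ i, g j ^ e i j ∣ u i := fun i =>
      Dvd.dvd.mul_left (Finset.dvd_prod_of_mem (fun j => g j ^ e i j) (Finset.mem_univ j)) _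
    by_cases hβa : β j = a
    · have h1 := pow_dvd_det_Wm f (g j) (fun x => e (σ x) j) (fun x => hu_dvd _)
      refine (pow_dvd_pow _ ?_).trans h1
      have h2 := hsub j
      rw [hsumf (fun i => e i j - (m - 1)), hβa]
      rw [← Finset.add_sum_erase t (fun i => e i j - (m - 1)) ha, ← hs, hβa] at h2
      omega
    · have hβs : β j ∈ s := Finset.mem_erase.2 ⟨hβa, hβt j⟩
      set x0 : Fin m := σ.symm ⟨β j, hβs⟩ with hx0
      have hσx0 : ((σ x0 : s) : ι) = β j := by rw [hx0, Equiv.apply_symm_apply]
      have h1 := pow_dvd_det_Wm (Function.update f x0 (u a)) (g j)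
        (Function.update (fun x => e (σ x) j) x0 (e a j)) (by
          intro x
          by_cases hx : x = x0
          · subst hx
            rw [Function.update_self, Function.update_self]
            exact hu_dvd a
          · rw [Function.update_of_ne hx, Function.update_of_ne hx]
            exact hu_dvd _)
      have h2 := det_exchange f (u a) (fun x => d (σ x)) (d a) x0 (by
        have h3 : ∑ x : Fin m, C (d (σ x)) * f x = ∑ i ∈ s, C (d i) * u i := by
          rw [← Finset.sum_coe_sort s, ← Equiv.sum_comp σ]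
        rw [h3, hs, Finset.add_sum_erase t (fun i => C (d i) * u i) ha]
        exact hrel)
      have h3 : g j ^ ((∑ i ∈ t, e i j) - e (β j) j - (m - 1) * ν j) ∣
          C (d (σ x0)) * (Wm f).det := by
        rw [h2, dvd_neg]
        refine Dvd.dvd.mul_left ?_ _
        refine (pow_dvd_pow _ ?_).trans h1
        have h5 : ∀ x, Function.update (fun x => e (σ x) j) x0 (e a j) x - (m - 1) =
            Function.update (fun x => e (σ x) j - (m - 1)) x0 (e a j - (m - 1)) x := by
          intro x
          by_cases hx : x = x0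
          · subst hx
            rw [Function.update_self, Function.update_self]
          · rw [Function.update_of_ne hx, Function.update_of_ne hx]
        have h4 : ∑ x, (Function.update (fun x => e (σ x) j) x0 (e a j) x - (m - 1)) +
            (e (β j) j - (m - 1)) = ∑ i ∈ t, (e i j - (m - 1)) := by
          rw [Finset.sum_congr rfl fun x _ => h5 x]
          rw [Finset.sum_update_of_mem (Finset.mem_univ x0)]
          rw [← Finset.add_sum_erase t (fun i => e i j - (m - 1)) ha, ← hs,
            ← hsumf (fun i => e i j - (m - 1))]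
          rw [← Finset.add_sum_erase Finset.univ (fun x : Fin m => e (σ x) j - (m - 1))
            (Finset.mem_univ x0), hσx0, Finset.sdiff_singleton_eq_erase]
          ring
        have h6 := hsub j
        omega
      have h5 : IsUnit (C (d (σ x0)) : K[X]) := by
        rw [isUnit_C]
        exact (hd _ (by rw [hσx0]; exact hβt j)).isUnit
      exact (h5.dvd_mul_left).1 h3
  have hprod : ∏ j, g j ^ ((∑ i ∈ t, e i j) - e (β j) j - (m - 1) * ν j) ∣ (Wm f).det := by
    refine Finset.prod_dvd_of_coprime ?_ fun j _ => hdiv j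
    intro j _ j' _ hjj
    exact (hco j j' hjj).pow
  have hdeg := natDegree_le_of_dvd hprod hW
  rw [natDegree_prod _ _ fun j _ => pow_ne_zero _ (hg0 j)] at hdeg
  have hdeg2 := hdeg.trans (natDegree_det_Wm f)
  have e1 : ∑ x, (f x).natDegree ≤ ∑ i ∈ s, (R i).natDegree +
      ∑ i ∈ s, ∑ j, e i j * (g j).natDegree := by
    rw [← Finset.sum_add_distrib,
      ← hsumf (fun i => (R i).natDegree + ∑ j, e i j * (g j).natDegree)]
    exact Finset.sum_le_sum fun x _ => hudeg _
  replace hdeg2 := hdeg2.trans e1
  rw [Finset.sum_comm (s := s)] at hdeg2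
  have e2 : ∀ j, (g j ^ ((∑ i ∈ t, e i j) - e (β j) j - (m - 1) * ν j)).natDegree
      = ((∑ i ∈ t, e i j) - e (β j) j - (m - 1) * ν j) * (g j).natDegree := by
    intro j
    rw [natDegree_pow]
  simp only [e2, ← Finset.sum_mul] at hdeg2
  -- conclusion
  have h6 : ∀ j, (∑ i ∈ s, e i j) + e a j = ∑ i ∈ t, e i j := by
    intro j
    rw [← Finset.add_sum_erase t (fun i => e i j) ha, ← hs, add_comm]
  have h7 : ∑ j, ((∑ i ∈ s, e i j) * (g j).natDegree + (g j).natDegree * (e a j - e (β j) j)) ≤
      ∑ j, ((∑ i ∈ t, e i j) - e (β j) j - (m - 1) * ν j) * (g j).natDegree +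
        ∑ j, (g j).natDegree * ((m - 1) * ν j) := by
    rw [← Finset.sum_add_distrib]
    refine Finset.sum_le_sum fun j _ => ?_
    have h9 := h6 j
    have h10 := hβ j a ha
    have h11 : (∑ i ∈ s, e i j) + (e a j - e (β j) j) ≤
        ((∑ i ∈ t, e i j) - e (β j) j - (m - 1) * ν j) + (m - 1) * ν j := by omega
    calc (∑ i ∈ s, e i j) * (g j).natDegree + (g j).natDegree * (e a j - e (β j) j)
        = (g j).natDegree * ((∑ i ∈ s, e i j) + (e a j - e (β j) j)) := by ring
      _ ≤ (g j).natDegree * (((∑ i ∈ t, e i j) - e (β j) j - (m - 1) * ν j) + (m - 1) * ν j) :=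
          Nat.mul_le_mul_left _ h11
      _ = _ := by ring
  rw [Finset.sum_add_distrib] at h7
  have hRs : ∑ i ∈ s, (R i).natDegree ≤ ∑ i ∈ t, (R i).natDegree :=
    Finset.sum_le_sum_of_subset (Finset.erase_subset _ _)
  have h8 : ∑ j, (g j).natDegree * (e a j - e (β j) j) ≤
      ∑ j, (g j).natDegree * ((m - 1) * ν j) + ∑ i ∈ t, (R i).natDegree := by omega
  have h9 : ∑ j, (g j).natDegree * (e a j - e b j) ≤
      ∑ j, (g j).natDegree * (e a j - e (β j) j) :=
    Finset.sum_le_sum fun j _ => Nat.mul_le_mul_left _ (Nat.sub_le_sub_left (hβ j b hb) _)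
  have h11 : ∑ j, (g j).natDegree * ((m - 1) * ν j) =
      (t.card - 2) * (∑ i ∈ t, ∑ j, if e i j = 0 then 0 else (g j).natDegree) := by
    have h12 : m = t.card - 1 := by rw [hm, hs, Finset.card_erase_of_mem ha]
    rw [h12, Nat.sub_sub, Finset.sum_comm, Finset.mul_sum]
    refine Finset.sum_congr rfl fun j _ => ?_
    simp only [hν]
    rw [mul_left_comm, Finset.mul_sum]
    congr 1
    refine Finset.sum_congr rfl fun i _ => ?_
    split_ifs <;> simp
  omega

/-- A linear relation among power products splits along far classes. -/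
theorem sepR (R : ι → K[X]) (g : Fin n → K[X]) (hg0 : ∀ j, g j ≠ 0)
    (hco : ∀ j j', j ≠ j' → IsCoprime (g j) (g j')) (e : ι → Fin n → ℕ) (lab : ι → ℕ) (N : ℕ)
    (hfar : ∀ i i', lab i ≠ lab i' →
      N < ∑ j, (g j).natDegree * (e i j - e i' j) ∨
        N < ∑ j, (g j).natDegree * (e i' j - e i j)) :
    ∀ (k : ℕ) (s : Finset ι) (c : ι → K), s.card = k →
      (s.card - 2) * (∑ i ∈ s, ∑ j, if e i j = 0 then 0 else (g j).natDegree) +
        ∑ i ∈ s, (R i).natDegree ≤ N →
      ∑ i ∈ s, C (c i) * (R i * ∏ j, g j ^ e i j) = 0 →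
      ∀ l, ∑ i ∈ s.filter (fun i => lab i = l), C (c i) * (R i * ∏ j, g j ^ e i j) = 0 := by
  classical
  intro k
  induction k using Nat.strong_induction_on with
  | _ k ih =>
    intro s c hk hN h l
    set u : ι → K[X] := fun i => R i * ∏ j, g j ^ e i j with hu
    by_cases hs : ∃ i ∈ s, c i = 0
    · obtain ⟨i0, hi0, hc0⟩ := hs
      have hlt : (s.erase i0).card < k := by
        rw [← hk]; exact Finset.card_erase_lt_of_mem hi0
      have h1 := ih (s.erase i0).card hlt (s.erase i0) c rfl
        (le_trans (Nat.add_le_add (Nat.mul_le_mul (by omega)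
          (Finset.sum_le_sum_of_subset (Finset.erase_subset _ _)))
          (Finset.sum_le_sum_of_subset (Finset.erase_subset _ _))) hN) (by
          rw [← Finset.add_sum_erase s (fun i => C (c i) * u i) hi0] at h
          simpa [hc0] using h) l
      rw [Finset.filter_erase] at h1
      by_cases hl : i0 ∈ s.filter (fun i => lab i = l)
      · rw [← Finset.add_sum_erase _ (fun i => C (c i) * u i) hl, hc0, C_0, zero_mul, zero_add]
        exact h1
      · rwa [Finset.erase_eq_of_notMem hl] at h1
    · push Not at hs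
      rcases s.eq_empty_or_nonempty with rfl | hne
      · simp
      -- a minimal relation
      let P : Finset ι → Prop := fun t => t.Nonempty ∧ ∃ d : ι → K, (∀ i ∈ t, d i ≠ 0) ∧
        ∑ i ∈ t, C (d i) * u i = 0
      have hPs : s ∈ s.powerset.filter P := by
        rw [Finset.mem_filter, Finset.mem_powerset]
        exact ⟨subset_rfl, hne, c, hs, h⟩
      obtain ⟨t, ht, htmin⟩ := Finset.exists_min_image (s.powerset.filter P) Finset.card ⟨s, hPs⟩
      rw [Finset.mem_filter, Finset.mem_powerset] at ht
      obtain ⟨hts, htne, d, hd, hdrel⟩ := ht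
      have hmin : ∀ s', s' ⊂ t → ∀ c' : ι → K, ∑ i ∈ s', C (c' i) * (R i * ∏ j, g j ^ e i j) = 0 →
          ∀ i ∈ s', c' i = 0 := by
        intro s' hs' c' hc' i hi
        by_contra hne'
        have h1 : s'.filter (fun i => c' i ≠ 0) ∈ s.powerset.filter P := by
          rw [Finset.mem_filter, Finset.mem_powerset]
          refine ⟨((Finset.filter_subset _ _).trans hs'.1).trans hts,
            ⟨i, Finset.mem_filter.2 ⟨hi, hne'⟩⟩, c', fun i hi => (Finset.mem_filter.1 hi).2, ?_⟩
          rw [← hc', Finset.sum_filter]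
          refine Finset.sum_congr rfl fun i _ => ?_
          by_cases h0 : c' i = 0
          · simp [h0]
          · simp [h0, hu]
        have h2 := htmin _ h1
        have h3 := Finset.card_lt_card hs'
        have h4 := Finset.card_le_card (Finset.filter_subset (fun i => c' i ≠ 0) s')
        omega
      have hclose := far_auxR R g hg0 hco e t d hd hdrel hmin
      have htcard : (t.card - 2) * (∑ i ∈ t, ∑ j, if e i j = 0 then 0 else (g j).natDegree) +
          ∑ i ∈ t, (R i).natDegree ≤ N :=
        le_trans (Nat.add_le_add (Nat.mul_le_mul (Nat.sub_le_sub_right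
          (Finset.card_le_card hts) 2) (Finset.sum_le_sum_of_subset hts))
          (Finset.sum_le_sum_of_subset hts)) hN
      obtain ⟨i0, hi0⟩ := htne
      have hlab : ∀ i ∈ t, lab i = lab i0 := by
        intro i hi
        by_contra hne'
        have hj := hfar i i0 hne'
        have h1 := hclose i i0 hi hi0
        have h2 := hclose i0 i hi0 hi
        omega
      set lam : K := c i0 / d i0 with hlam
      let c2 : ι → K := fun i => if i ∈ t then c i - lam * d i else c i
      have hc2 : c2 i0 = 0 := by
        simp only [c2, if_pos hi0, hlam]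
        rw [div_mul_cancel₀ _ (hd i0 hi0), sub_self]
      have hsplit : ∀ s' : Finset ι, ∑ i ∈ s', C (c2 i) * u i =
          ∑ i ∈ s', C (c i) * u i - C lam * ∑ i ∈ s' ∩ t, C (d i) * u i := by
        intro s'
        rw [← Finset.filter_mem_eq_inter, Finset.sum_filter, Finset.mul_sum,
          ← Finset.sum_sub_distrib]
        refine Finset.sum_congr rfl fun i _ => ?_
        by_cases hi : i ∈ t
        · simp only [c2, if_pos hi, C_sub, C_mul]; ring
        · simp only [c2, if_neg hi]; ring
      have hrel2 : ∑ i ∈ s, C (c2 i) * u i = 0 := by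
        rw [hsplit, Finset.inter_eq_right.2 hts, hdrel, mul_zero, sub_zero]
        exact h
      have hi0s : i0 ∈ s := hts hi0
      have hlt : (s.erase i0).card < k := by
        rw [← hk]; exact Finset.card_erase_lt_of_mem hi0s
      have h1 := ih (s.erase i0).card hlt (s.erase i0) c2 rfl
        (le_trans (Nat.add_le_add (Nat.mul_le_mul (by omega)
          (Finset.sum_le_sum_of_subset (Finset.erase_subset _ _)))
          (Finset.sum_le_sum_of_subset (Finset.erase_subset _ _))) hN) (by
          rw [← Finset.add_sum_erase s (fun i => C (c2 i) * u i) hi0s] at hrel2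
          simpa [hc2] using hrel2) l
      have h2 : ∑ i ∈ s.filter (fun i => lab i = l), C (c2 i) * u i = 0 := by
        rw [Finset.filter_erase] at h1
        by_cases hl : i0 ∈ s.filter (fun i => lab i = l)
        · rw [← Finset.add_sum_erase _ (fun i => C (c2 i) * u i) hl, hc2, C_0, zero_mul, zero_add]
          exact h1
        · rwa [Finset.erase_eq_of_notMem hl] at h1
      rw [hsplit] at h2
      have h3 : ∑ i ∈ s.filter (fun i => lab i = l) ∩ t, C (d i) * u i = 0 := by
        by_cases hl : lab i0 = l
        · have h4 : s.filter (fun i => lab i = l) ∩ t = t := by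
            rw [Finset.inter_eq_right]
            intro i hi
            rw [Finset.mem_filter]
            exact ⟨hts hi, (hlab i hi).trans hl⟩
          rw [h4, hdrel]
        · have h4 : s.filter (fun i => lab i = l) ∩ t = ∅ := by
            rw [← Finset.disjoint_iff_inter_eq_empty, Finset.disjoint_left]
            intro i hi hit
            rw [Finset.mem_filter] at hi
            exact hl ((hlab i hit).symm.trans hi.2)
          rw [h4, Finset.sum_empty]
      rw [h3, mul_zero, sub_zero] at h2
      exact h2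

end Pool.Agent.H964R4
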