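import Mathlib
import Pool.Agent.H964R4.SepR
import Pool.Agent.H964R4.Gene

/-!
# Far classes of power products of general bases remain separated after the substitution
-/

set_option autoImplicit false
set_option linter.unusedSectionVars false

namespace Pool.Agent.H964R4

open MvPolynomial Pool.Agent.H530R2

variable {F : Type} [Field F] {n v : ℕ} {a : Fin n → F}

/-- `g` is a polynomial in `k` polynomials of degree at most `r`. -/
def Simp (k r : ℕ) (g : MvPolynomial (Fin n) F) : Prop :=
  ∃ (q : Fin k → MvPolynomial (Fin n) F) (G : MvPolynomial (Fin k) F),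
    (∀ b, (q b).totalDegree ≤ r) ∧ g = aeval q G

/-- The composite to the field. -/
noncomputable def phK (v : ℕ) (a : Fin n → F) : MvPolynomial (Fin n ⊕ Fin n) F →+* K3 F v :=
  (algebraMap (B3 F v) (K3 F v)).comp (Phi2 a v).toRingHom

theorem phK_eq_zero {H : MvPolynomial (Fin n ⊕ Fin n) F} (h : phK v a H = 0) :
    Phi2 a v H = 0 := by
  apply IsFractionRing.injective (B3 F v) (K3 F v)
  rw [map_zero]
  exact h

/-- The number of points needed for a pair of bases. -/
def N2 (k δ : ℕ) : ℕ := (2 * (k * (δ + 1))) * δ + 2 * (k * (δ + 1))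

theorem card2 (k δ : ℕ) : Fintype.card ((Fin k × Fin (δ + 1)) ⊕ (Fin k × Fin (δ + 1))) =
    2 * (k * (δ + 1)) := by
  simp
  ring

/-- The algebra of the coefficients of a pair of bases. -/
noncomputable def qq {k δ : ℕ} (q q' : Fin k → MvPolynomial (Fin n) F) :
    (Fin k × Fin (δ + 1)) ⊕ (Fin k × Fin (δ + 1)) → MvPolynomial (Fin n ⊕ Fin n) F :=
  Sum.elim (fun y => (tau (q y.1)).coeff y.2) (fun y => (tau (q' y.1)).coeff y.2)

theorem qq_deg {k δ : ℕ} {q q' : Fin k → MvPolynomial (Fin n) F} (hq : ∀ b, (q b).totalDegree ≤ δ)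
    (hq' : ∀ b, (q' b).totalDegree ≤ δ) (a : (Fin k × Fin (δ + 1)) ⊕ (Fin k × Fin (δ + 1))) :
    (qq q q' a).totalDegree ≤ δ := by
  rcases a with a | a
  · exact (PD_tau _ _).trans (hq _)
  · exact (PD_tau _ _).trans (hq' _)

/-- The degree on the line is preserved. -/
theorem natDegree_line {k δ : ℕ} (hv : N2 k δ ≤ v) [CharZero F] (ha : Function.Injective a)
    {g : MvPolynomial (Fin n) F} (hg : g ≠ 0) (hgs : Simp k δ g) :
    ((tau g).map (phK v a)).natDegree = g.totalDegree := by
  obtain ⟨q, G, hq, rfl⟩ := hgs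
  set A := Algebra.adjoin F (Set.range (qq (δ := δ) q q)) with hA
  have hl := tau_mem_lifts A q hq (fun b i =>
    Algebra.subset_adjoin ⟨Sum.inl (b, i), rfl⟩) G
  apply le_antisymm
  · exact Polynomial.natDegree_map_le.trans (natDegree_tau _)
  · apply Polynomial.le_natDegree_of_ne_zero
    rw [Polynomial.coeff_map]
    intro h0
    refine coeff_tau_top hg ?_
    refine Phi2_faithful' a ha (qq (δ := δ) q q) (qq_deg hq hq) ?_ (coeff_mem_of_lifts hl _)
      (phK_eq_zero h0)
    rw [card2]
    exact hv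

/-- Coprimality is preserved. -/
theorem isCoprime_line {k δ : ℕ} (hv : N2 k δ ≤ v) [CharZero F] (ha : Function.Injective a)
    {g h : MvPolynomial (Fin n) F} (hg : g ≠ 0) (hgs : Simp k δ g) (hhs : Simp k δ h)
    (hgh : IsRelPrime g h) : IsCoprime ((tau g).map (phK v a)) ((tau h).map (phK v a)) := by
  by_cases hd : g.totalDegree = 0
  · have h1 : IsUnit ((tau g).map (phK v a)) := by
      have h2 := (totalDegree_eq_zero_iff_eq_C).1 hd
      have h3 : coeff 0 g ≠ 0 := by
        intro h0; rw [h0, C_0] at h2; exact hg h2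
      have h4 : IsUnit g := by
        rw [h2]
        exact (h3.isUnit).map C
      have h5 := h4.map tau
      exact h5.map (Polynomial.mapRingHom (phK v a))
    exact (isCoprime_one_left.of_isCoprime_of_dvd_left h1.dvd)
  · obtain ⟨q, G, hq, hgG⟩ := hgs
    obtain ⟨q', H, hq', hhH⟩ := hhs
    set A := Algebra.adjoin F (Set.range (qq (δ := δ) q q')) with hA
    have hl := tau_mem_lifts A q hq (fun b i =>
      Algebra.subset_adjoin ⟨Sum.inl (b, i), rfl⟩) G
    have hl' := tau_mem_lifts A q' hq' (fun b i =>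
      Algebra.subset_adjoin ⟨Sum.inr (b, i), rfl⟩) H
    rw [← hgG] at hl
    rw [← hhH] at hl'
    have hinj : Function.Injective (algebraMap (MvPolynomial (Fin n ⊕ Fin n) F)
      (FractionRing (MvPolynomial (Fin n ⊕ Fin n) F))) := IsFractionRing.injective _ _
    have hR0 : Polynomial.resultant (tau g) (tau h) ≠ 0 := by
      intro h0
      have h1 := Polynomial.resultant_ne_zero _ _ (isCoprime_tau hg hgh)
      apply h1
      rw [Polynomial.natDegree_map_eq_of_injective hinj,
        Polynomial.natDegree_map_eq_of_injective hinj, Polynomial.resultant_map_map, h0, map_zero]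
    have hR1 : phK v a (Polynomial.resultant (tau g) (tau h)) ≠ 0 := by
      intro h0
      apply hR0
      refine Phi2_faithful' a ha (qq (δ := δ) q q') (qq_deg hq hq') ?_ (resultant_mem hl hl' _ _)
        (phK_eq_zero h0)
      rw [card2]
      exact hv
    have hdt : (tau g).natDegree ≠ 0 := by rw [natDegree_tau_eq hg]; exact hd
    obtain ⟨α, β, -, -, hab⟩ := Polynomial.exists_mul_add_mul_eq_C_resultant
      ((tau g).map (phK v a)) ((tau h).map (phK v a)) (m := (tau g).natDegree)
      (n := (tau h).natDegree) Polynomial.natDegree_map_le Polynomial.natDegree_map_le (Or.inl hdt)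
    rw [Polynomial.resultant_map_map] at hab
    set R := phK v a (Polynomial.resultant (tau g) (tau h)) with hR
    refine ⟨Polynomial.C R⁻¹ * α, Polynomial.C R⁻¹ * β, ?_⟩
    have h2 : Polynomial.C R⁻¹ * α * (tau g).map (phK v a) +
        Polynomial.C R⁻¹ * β * (tau h).map (phK v a) = Polynomial.C R⁻¹ * Polynomial.C R := by
      rw [← hab]; ring
    rw [h2, ← Polynomial.C_mul, inv_mul_cancel₀ hR1, Polynomial.C_1]

theorem line_ne {k δ : ℕ} (hv : N2 k δ ≤ v) [CharZero F] (ha : Function.Injective a)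
    {g : MvPolynomial (Fin n) F} (hg : g ≠ 0) (hgs : Simp k δ g) :
    (tau g).map (phK v a) ≠ 0 := by
  intro h0
  obtain ⟨q, G, hq, hgG⟩ := hgs
  have hl := tau_mem_lifts (Algebra.adjoin F (Set.range (qq (δ := δ) q q))) q hq (fun b i =>
    Algebra.subset_adjoin ⟨Sum.inl (b, i), rfl⟩) G
  rw [← hgG] at hl
  have h1 := congrArg (fun f => Polynomial.coeff f g.totalDegree) h0
  simp only [Polynomial.coeff_map, Polynomial.coeff_zero] at h1
  refine coeff_tau_top hg ?_
  refine Phi2_faithful' a ha (qq (δ := δ) q q) (qq_deg hq hq) ?_ (coeff_mem_of_lifts hl _)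
    (phK_eq_zero h1)
  rw [card2]
  exact hv

theorem Psi_gen_map (f : MvPolynomial (Fin n) F) :
    (Psi F v (gen a v f)).map (algebraMap (B3 F v) (K3 F v)) = (tau f).map (phK v a) := by
  rw [Psi_gen, Polynomial.map_map]
  rfl

/-- Polynomials in few polynomials of low degree do not vanish on the generator. -/
theorem gen_simp_ne {k δ : ℕ} (hv : N2 k δ ≤ v) [CharZero F] (ha : Function.Injective a)
    {g : MvPolynomial (Fin n) F} (hg : g ≠ 0) (hgs : Simp k δ g) : gen a v g ≠ 0 := by
  intro h0
  apply line_ne hv ha hg hgs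
  rw [← Psi_gen_map, h0, map_zero, Polynomial.map_zero]

/-- A relation between the substituted power products splits along far classes. -/
theorem sep_gen {k δ m p : ℕ} (hv : N2 k δ ≤ v) [CharZero F] (ha : Function.Injective a)
    (g : Fin p → MvPolynomial (Fin n) F) (hg : ∀ j, g j ≠ 0) (hgs : ∀ j, Simp k δ (g j))
    (hgg : ∀ j j', j ≠ j' → IsRelPrime (g j) (g j')) (e : Fin m → Fin p → ℕ) (lab : Fin m → ℕ)
    (R : Fin m → MvPolynomial (Fin n) F)
    (hfar : ∀ i i', lab i ≠ lab i' →
      (m - 2) * (∑ i, ∑ j, if e i j = 0 then 0 else (g j).totalDegree) +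
          ∑ i, (R i).totalDegree < ∑ j, (g j).totalDegree * (e i j - e i' j) ∨
      (m - 2) * (∑ i, ∑ j, if e i j = 0 then 0 else (g j).totalDegree) +
          ∑ i, (R i).totalDegree < ∑ j, (g j).totalDegree * (e i' j - e i j))
    (h : gen a v (∑ i, R i * ∏ j, g j ^ e i j) = 0) (l : ℕ) :
    gen a v (∑ i ∈ Finset.univ.filter (fun i => lab i = l), R i * ∏ j, g j ^ e i j) = 0 := by
  classical
  set γ : Fin p → Polynomial (K3 F v) := fun j => (tau (g j)).map (phK v a) with hγ
  set ρ : Fin m → Polynomial (K3 F v) := fun i => (tau (R i)).map (phK v a) with hρ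
  have hdeg : ∀ j, (γ j).natDegree = (g j).totalDegree := fun j =>
    natDegree_line hv ha (hg j) (hgs j)
  have hdegR : ∀ i, (ρ i).natDegree ≤ (R i).totalDegree := fun i =>
    Polynomial.natDegree_map_le.trans (natDegree_tau _)
  have hinj : Function.Injective (algebraMap (B3 F v) (K3 F v)) := IsFractionRing.injective _ _
  have hγ0 : ∀ j, γ j ≠ 0 := fun j => line_ne hv ha (hg j) (hgs j)
  have hco : ∀ j j', j ≠ j' → IsCoprime (γ j) (γ j') := fun j j' hjj =>
    isCoprime_line hv ha (hg j) (hgs j) (hgs j') (hgg j j' hjj)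
  have hsum : ∀ s : Finset (Fin m), (Psi F v (gen a v (∑ i ∈ s, R i *
      ∏ j, g j ^ e i j))).map (algebraMap (B3 F v) (K3 F v)) =
      ∑ i ∈ s, Polynomial.C 1 * (ρ i * ∏ j, γ j ^ e i j) := by
    intro s
    rw [Psi_gen_map, map_sum, Polynomial.map_sum]
    refine Finset.sum_congr rfl fun i _ => ?_
    rw [map_mul, map_prod, Polynomial.map_mul, Polynomial.map_prod, Polynomial.C_1, one_mul]
    congr 1
    refine Finset.prod_congr rfl fun j _ => ?_
    rw [map_pow, Polynomial.map_pow]
  have h1 := sepR ρ γ hγ0 hco e lab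
    ((m - 2) * (∑ i, ∑ j, if e i j = 0 then 0 else (g j).totalDegree) + ∑ i, (R i).totalDegree)
    (by
      intro i i' hii
      simp only [hdeg]
      exact hfar i i' hii) m Finset.univ (fun _ => 1) (by simp) (by
      simp only [hdeg]
      refine Nat.add_le_add ?_ (Finset.sum_le_sum fun i _ => hdegR i)
      simp) (by rw [← hsum, h, map_zero, Polynomial.map_zero]) l
  rw [← hsum] at h1
  rw [Polynomial.map_eq_zero_iff hinj] at h1
  exact Psi_inj (by rw [h1, map_zero])

end Pool.Agent.H964R4
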